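import Pool.Agent.Helper78.AO.Goals

/-!
# Packet AO-MLS: the runs of a machine are given by a list
-/

namespace Pool.Agent.Helper15.AO

open Pool.Agent.Helper78.AO Pool.Agent.Helper78.DT

theorem litm_nil (A : Machine) (x : List Bool) : litm A x [] = [] := by
  simp [litm]

theorem okl_nil (A : Machine) (x : List Bool) (K t : ℕ) (h : ℕ → ℕ) :
    okl A x K t h [] = true := by
  simp [okl, nms]

theorem mls (hE : LseStmt) (hW : LswStmt) (hC : CvtStmt) : MlsStmt := by
  intro A x c
  obtain ⟨f, hf, hev⟩ := hC A x (2 * bd c x) (lst A x c (A.T x) 0 [])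
    (hW A x c (A.T x) 0 [] (by simp [msize]))
  refine ⟨f, hf, fun b h K t => ?_⟩
  rw [hev b h K t, hE A x c K t h (cf b) (A.T x) 0 []
    (by rw [litm_nil]; intro p hp; cases hp) (by rw [litm_nil]; exact okl_nil A x K t h)]
  rfl

end Pool.Agent.Helper15.AO
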